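import Pool.Agent.X91.HaarShift

/-!
MP_02a511_an, Q1: for the Haar shift `T` there is a constant `η < 1` with
`∫_V (T 1_V)² ≤ η |V|` for all sets `V` with `0 < |V| < ∞`; one may take `η = 1 - 1/1206`.
-/

set_option autoImplicit false

open MeasureTheory Set Filter Topology
open scoped RealInnerProductSpace

namespace Pool.Agent.Results.MP_02a511_an.UniformLoss

open Pool.Agent.X91.Haar
open Pool.Agent.X91

/-- `T h_J` for the Haar shift `T` and `J = [k 2^j, (k+1) 2^j)`: if `k` is even then
`J` is a left half, its sibling is `[(k+1) 2^j, (k+2) 2^j)` and `T h_J` is minus the Haar function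
of the sibling; if `k` is odd then `J` is a right half, its sibling is `[(k-1) 2^j, k 2^j)` and
`T h_J` is the Haar function of the sibling. -/
noncomputable def shiftHaar (j k : ℤ) (x : ℝ) : ℝ :=
  if Even k then - haar j (k + 1) x else haar j (k - 1) x

/-- Lebesgue measure on the line. -/
noncomputable def vol : Measure ℝ := volume

/-- The Hilbert space `L²(ℝ)`. -/
def L2 : Type := Lp ℝ 2 vol

noncomputable instance instNACG : NormedAddCommGroup L2 :=
  (Lp.instNormedAddCommGroup : NormedAddCommGroup (Lp ℝ 2 vol))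

noncomputable instance instNS : NormedSpace ℝ L2 :=
  (Lp.instNormedSpace : NormedSpace ℝ (Lp ℝ 2 vol))

/-- A representative of an element of `L²(ℝ)`. -/
noncomputable def L2.fn (F : L2) : ℝ → ℝ := fun x => (show Lp ℝ 2 vol from F) x

/-- `T` is the Haar shift. -/
def IsHaarShift (T : L2 →L[ℝ] L2) : Prop :=
  ∀ (j k : ℤ) (F G : L2), (F.fn =ᵐ[vol] haar j k) → (G.fn =ᵐ[vol] shiftHaar j k) → T F = G

theorem shiftHaar_eq (j k : ℤ) (x : ℝ) : shiftHaar j k x = sg k * haar j (sib k) x := by
  unfold shiftHaar sg sib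
  split_ifs <;> ring

theorem eh'_coe (i : ℤ × ℤ) : (eh' i : ℝ → ℝ) =ᵐ[volume] shiftHaar i.1 i.2 := by
  unfold eh'
  filter_upwards [Lp.coeFn_smul (sg i.2) (eh (i.1, sib i.2)), eh_coe (i.1, sib i.2)] with z h1 h2
  rw [h1, Pi.smul_apply, h2, smul_eq_mul, shiftHaar_eq]

theorem ext_ae {F G : Lp ℝ 2 (volume : Measure ℝ)} {f : ℝ → ℝ} (hF : (F : ℝ → ℝ) =ᵐ[volume] f)
    (hG : (G : ℝ → ℝ) =ᵐ[volume] f) : F = G :=
  Lp.ext (hF.trans hG.symm)

theorem isHaarShift_iff
    (T : Lp ℝ 2 (volume : Measure ℝ) →L[ℝ] Lp ℝ 2 (volume : Measure ℝ)) :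
    IsHaarShift T ↔ ∀ i, T (eh i) = eh' i := by
  constructor
  · intro h i
    exact h i.1 i.2 (eh i) (eh' i) (eh_coe i) (eh'_coe i)
  · intro h j k F G hF hG
    have e1 : (show Lp ℝ 2 (volume : Measure ℝ) from F) = eh (j, k) := ext_ae hF (eh_coe (j, k))
    have e2 : (show Lp ℝ 2 (volume : Measure ℝ) from G) = eh' (j, k) := ext_ae hG (eh'_coe (j, k))
    have := h (j, k)
    rw [← e1, ← e2] at this
    exact this

/-- The martingale of a function. -/
noncomputable def av (F : ℝ → ℝ) (j k : ℤ) : ℝ := M F j k / 2 ^ j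

theorem av_isM {F : ℝ → ℝ} (hF : ∀ j k, IntegrableOn F (dy j k)) : Mart.IsM (av F) := by
  intro j k
  unfold av
  rw [M_split F hF j k, Mart.pow_half]
  have hp := (two_zpow_pos j).ne'
  field_simp

theorem d_av (F : Lp ℝ 2 (volume : Measure ℝ)) (j k : ℤ) :
    Mart.d (av F) j k = (Real.sqrt (2 ^ j)) * ⟪eh (j, k), F⟫ / 2 ^ j := by
  unfold Mart.d av
  rw [inner_eh_M, Mart.pow_half]
  have hp := two_zpow_pos j
  have hs : Real.sqrt (2 ^ j) ≠ 0 := by positivity
  field_simp

section

variable {T : Lp ℝ 2 (volume : Measure ℝ) →L[ℝ] Lp ℝ 2 (volume : Measure ℝ)}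

theorem sib1 (hT : ∀ i, T (eh i) = eh' i) (F : Lp ℝ 2 (volume : Measure ℝ)) (j k : ℤ) :
    Mart.d (av (T F)) j (2 * k) = Mart.d (av F) j (2 * k + 1) := by
  rw [d_av, d_av, inner_shift hT]
  have h1 : Even (2 * k) := ⟨k, by ring⟩
  simp only [sg, sib, h1, if_true]
  ring

theorem sib2 (hT : ∀ i, T (eh i) = eh' i) (F : Lp ℝ 2 (volume : Measure ℝ)) (j k : ℤ) :
    Mart.d (av (T F)) j (2 * k + 1) = - Mart.d (av F) j (2 * k) := by
  rw [d_av, d_av, inner_shift hT]
  have h1 : ¬ Even (2 * k + 1) := by rw [Int.even_iff]; omega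
  simp only [sg, sib, h1, if_false]
  rw [show 2 * k + 1 - 1 = 2 * k by ring]
  ring

/-- The mean of `F * T F` over a dyadic interval. -/
theorem M_mul (hT : ∀ i, T (eh i) = eh' i) (F : Lp ℝ 2 (volume : Measure ℝ)) (j k : ℤ) :
    M (fun x => (F : ℝ → ℝ) x * (T F : ℝ → ℝ) x) j k =
      2 ^ j * (av F j k * av (T F) j k + Mart.d (av F) j k * Mart.d (av (T F)) j k) := by
  have hF : MemLp (F : ℝ → ℝ) 2 volume := Lp.memLp F
  have hG : MemLp (T F : ℝ → ℝ) 2 volume := Lp.memLp (T F)
  have m1 := av_isM (intOn hF)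
  have m2 := av_isM (intOn hG)
  have h1 := Lev_tendsto hF hG j k
  have h2 := (tendsto_add_atTop_iff_nat 1).mpr h1
  have h3 : ∀ n, Lev (fun j k => M F j k * M (T F) j k / 2 ^ j) (n + 1) j k =
      2 ^ j * (av F j k * av (T F) j k + Mart.d (av F) j k * Mart.d (av (T F)) j k) := by
    intro n
    rw [Lev_succ']
    have e : (fun j k => M F (j - 1) (2 * k) * M (T F) (j - 1) (2 * k) / 2 ^ (j - 1) +
        M F (j - 1) (2 * k + 1) * M (T F) (j - 1) (2 * k + 1) / 2 ^ (j - 1)) =
        fun j k => 2 ^ j * (av F j k * av (T F) j k +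
          Mart.d (av F) j k * Mart.d (av (T F)) j k) := by
      funext j k
      have l1 := m1.left j k
      have l2 := m2.left j k
      have r1 := m1.right j k
      have r2 := m2.right j k
      have hp := two_zpow_pos (j - 1)
      have g : ∀ a b : ℝ, a * b / 2 ^ (j - 1) = 2 ^ (j - 1) * ((a / 2 ^ (j - 1)) * (b / 2 ^ (j - 1))) := by
        intro a b
        field_simp
      rw [g, g]
      have g1 : ∀ l, M F (j - 1) l / 2 ^ (j - 1) = av F (j - 1) l := fun l => rfl
      have g2 : ∀ l, M (T F) (j - 1) l / 2 ^ (j - 1) = av (T F) (j - 1) l := fun l => rfl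
      rw [g1, g1, g2, g2, l1, l2, r1, r2, Mart.pow_half]
      ring
    rw [e]
    refine Lev_additive _ (fun j k => ?_) n j k
    have l1 := m1.left j k
    have l2 := m2.left j k
    have r1 := m1.right j k
    have r2 := m2.right j k
    rw [l1, l2, r1, r2, sib1 hT, sib2 hT, Mart.pow_half]
    ring
  simp_rw [h3] at h2
  exact (tendsto_nhds_unique h2 tendsto_const_nhds)

theorem core (hT : ∀ i, T (eh i) = eh' i) (F : Lp ℝ 2 (volume : Measure ℝ)) (V : Set ℝ)
    (hV : MeasurableSet V) (hVf : volume V < ⊤) (hF : (F : ℝ → ℝ) =ᵐ[volume] V.indicator 1) :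
    ∫ x in V, (T F : ℝ → ℝ) x ^ 2 ≤ (1 - 1 / 1206) * (volume V).toReal := by
  have h01 : ∀ᵐ x, (F : ℝ → ℝ) x = 0 ∨ (F : ℝ → ℝ) x = 1 := by
    filter_upwards [hF] with x hx
    rw [hx]
    by_cases h : x ∈ V
    · right; rw [indicator_of_mem h]; rfl
    · left; rw [indicator_of_notMem h]
  have hFm : MemLp (F : ℝ → ℝ) 2 volume := Lp.memLp F
  have hGm : MemLp (T F : ℝ → ℝ) 2 volume := Lp.memLp (T F)
  set G : ℝ → ℝ := (T F : ℝ → ℝ) with hG
  set κ : ℝ → ℝ := fun x => G x - V.indicator G x with hκ
  have hκm : MemLp κ 2 volume := hGm.sub (hGm.indicator hV)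
  have hFi : Integrable (F : ℝ → ℝ) volume := by
    refine Integrable.congr ?_ hF.symm
    rw [integrable_indicator_iff hV]
    exact integrableOn_const hVf.ne
  have hFGi : Integrable (fun x => (F : ℝ → ℝ) x * G x) volume := intMul hFm hGm
  have hFG : (fun x => (F : ℝ → ℝ) x * G x) =ᵐ[volume] V.indicator G := by
    filter_upwards [hF] with x hx
    rw [hx]
    by_cases h : x ∈ V <;> simp [h]
  have hMκ : ∀ j k, M κ j k = M G j k - M (fun x => (F : ℝ → ℝ) x * G x) j k := by
    intro j k
    unfold M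
    rw [← integral_sub (intOn hGm j k) hFGi.integrableOn]
    refine setIntegral_congr_ae (measurableSet_dy _ _) ?_
    filter_upwards [hFG] with x hx _
    rw [hx]
  have hDat : Mart.Data (av F) (av G) (av κ) := by
    refine ⟨av_isM (intOn hFm), av_isM (intOn hGm), av_isM (intOn hκm), ?_, ?_, sib1 hT F,
      sib2 hT F, ?_⟩
    · intro j k
      refine div_nonneg (integral_nonneg_of_ae ?_) (two_zpow_pos j).le
      refine ae_restrict_of_ae ?_
      filter_upwards [h01] with x hx
      rcases hx with hx | hx <;> simp [hx]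
    · intro j k
      unfold av
      rw [div_le_one (two_zpow_pos j)]
      have h1 : M F j k ≤ ∫ x in dy j k, (1 : ℝ) := by
        refine integral_mono_ae (intOn hFm j k) (integrable_const _) (ae_restrict_of_ae ?_)
        filter_upwards [h01] with x hx
        rcases hx with hx | hx <;> simp [hx]
      rw [setIntegral_const, Measure.real, volume_dy, ENNReal.toReal_ofReal (two_zpow_pos j).le,
        smul_eq_mul, mul_one] at h1
      exact h1
    · intro j k
      have h1 : av κ j k = av G j k - (av F j k * av G j k +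
          Mart.d (av F) j k * Mart.d (av G) j k) := by
        rw [show av κ j k = M κ j k / 2 ^ j from rfl, hMκ, M_mul hT F j k,
          show M G j k = 2 ^ j * av G j k by
            unfold av
            have := (two_zpow_pos j).ne'
            field_simp]
        have := (two_zpow_pos j).ne'
        field_simp
        rw [← hG]
        ring
      rw [h1]
      ring
  set A := ∫ x, (F : ℝ → ℝ) x with hA
  have hA0 : 0 ≤ A := by
    refine integral_nonneg_of_ae ?_
    filter_upwards [h01] with x hx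
    rcases hx with hx | hx <;> simp [hx]
  have hAV : A = (volume V).toReal := by
    rw [hA, integral_congr_ae hF, integral_indicator_one hV]
    rfl
  set K := ∫ x, κ x ^ 2 with hK
  -- the local inequality
  have hloc : ∀ j k, (68 / 100) * ((1 / 80) * M F j k) ≤
      (41 / 4) * M (fun x => κ x ^ 2) j k + 2 * (A ^ 2 / 2 ^ j) := by
    intro j k
    have hp := two_zpow_pos j
    have h1 := Mart.main hDat j k (M (fun x => κ x ^ 2) j k) ?_ ?_
    · have e1 : 2 ^ j * av F j k = M F j k := by
        unfold av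
        field_simp
      have e2 : 2 ^ j * av F j k ^ 2 = M F j k ^ 2 / 2 ^ j := by
        unfold av
        field_simp
      rw [e1, e2] at h1
      have h2 : M F j k ^ 2 / 2 ^ j ≤ A ^ 2 / 2 ^ j := by
        refine div_le_div_of_nonneg_right ?_ hp.le
        refine pow_le_pow_left₀ ?_ ?_ 2
        · refine integral_nonneg_of_ae (ae_restrict_of_ae ?_)
          filter_upwards [h01] with x hx
          rcases hx with hx | hx <;> simp [hx]
        · refine setIntegral_le_integral hFi ?_
          filter_upwards [h01] with x hx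
          rcases hx with hx | hx <;> simp [hx]
      linarith
    · intro n
      have h2 := Lev_sq_le hκm n j k
      have h3 : Mart.P2 (av κ) = fun j k => M κ j k ^ 2 / 2 ^ j := by
        funext j k
        unfold Mart.P2 av
        have := (two_zpow_pos j).ne'
        field_simp
      rw [h3]
      exact h2
    · have h2 := Lev_tendsto hFm hFm j k
      have h3 : M (fun x => (F : ℝ → ℝ) x * (F : ℝ → ℝ) x) j k = M F j k := by
        unfold M
        refine setIntegral_congr_ae (measurableSet_dy _ _) ?_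
        filter_upwards [h01] with x hx _
        rcases hx with hx | hx <;> simp [hx]
      rw [h3] at h2
      have h4 : ∀ n, Lev (fun j k => 2 ^ j * (av F j k - av F j k ^ 2)) n j k =
          M F j k - Lev (fun j k => M F j k * M F j k / 2 ^ j) n j k := by
        intro n
        rw [← Lev_additive (M F) (M_split _ (intOn hFm)) n j k, ← Lev_sub]
        congr 1
        funext j k
        unfold av
        have := (two_zpow_pos j).ne'
        field_simp
      simp_rw [h4]
      have h5 := (tendsto_const_nhds (x := M F j k)).sub h2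
      rwa [sub_self] at h5
  have hlim1 := tendsto_two F hFi
  have hlim2 : Tendsto (fun n : ℕ => A ^ 2 / (2 : ℝ) ^ ((n : ℕ) : ℤ)) atTop (𝓝 0) := by
    simp_rw [zpow_natCast]
    exact tendsto_const_nhds.div_atTop (tendsto_pow_atTop_atTop_of_one_lt (by norm_num))
  have hκi : Integrable (fun x => κ x ^ 2) := hκm.integrable_sq
  have hglob : ∀ n : ℕ, (68 / 100) * ((1 / 80) * (M F n 0 + M F n (-1))) ≤
      (41 / 4) * K + 4 * (A ^ 2 / (2 : ℝ) ^ ((n : ℕ) : ℤ)) := by
    intro n
    have h1 := hloc n 0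
    have h2 := hloc n (-1)
    have h3 : M (fun x => κ x ^ 2) n 0 + M (fun x => κ x ^ 2) n (-1) ≤ K := by
      unfold M
      rw [← setIntegral_union (dy_disj _ _ _ (by omega)) (measurableSet_dy _ _) hκi.integrableOn
        hκi.integrableOn]
      exact setIntegral_le_integral hκi (Eventually.of_forall fun x => sq_nonneg _)
    linarith
  have hfin : (68 / 100) * ((1 / 80) * A) ≤ (41 / 4) * K := by
    have h1 := (hlim1.const_mul (1 / 80)).const_mul (68 / 100)
    have h2 := (tendsto_const_nhds (x := (41 / 4) * K)).add (hlim2.const_mul 4)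
    have h3 := le_of_tendsto_of_tendsto' h1 h2 hglob
    simpa using h3
  -- the isometry
  have hiso : ∫ x, G x ^ 2 = A := by
    have h1 := shift_isometry hT F
    rw [L2.inner_def, L2.inner_def] at h1
    have h2 : ∫ x, ⟪(T F : ℝ → ℝ) x, (T F : ℝ → ℝ) x⟫ = ∫ x, G x ^ 2 := by
      refine integral_congr_ae (Eventually.of_forall fun x => ?_)
      simp only [RCLike.inner_apply, conj_trivial]
      rw [← hG]
      ring
    have h3 : ∫ x, ⟪(F : ℝ → ℝ) x, (F : ℝ → ℝ) x⟫ = A := by
      refine integral_congr_ae ?_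
      filter_upwards [h01] with x hx
      simp only [RCLike.inner_apply, conj_trivial]
      rcases hx with hx | hx <;> simp [hx]
    rw [← h2, h1, h3]
  have hsplit : ∫ x in V, G x ^ 2 = A - K := by
    have hGi : Integrable (fun x => G x ^ 2) := hGm.integrable_sq
    rw [← hiso, hK, ← integral_sub hGi hκi, ← integral_indicator hV]
    refine integral_congr_ae (Eventually.of_forall fun x => ?_)
    simp only [hκ]
    by_cases h : x ∈ V <;> simp [h]
  rw [hsplit, ← hAV]
  linarith

end

/-- The Haar shift exists and is unique, and for every set `V` with `0 < |V| < ∞` it satisfies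
`∫_V (T 1_V)² ≤ (1 - 1/1206) |V|`. -/
theorem result :
    (∃! T : L2 →L[ℝ] L2, IsHaarShift T) ∧
    ∀ T : L2 →L[ℝ] L2, IsHaarShift T →
      ∀ V : Set ℝ, NullMeasurableSet V vol → 0 < vol V → vol V < ⊤ →
        ∀ F : L2, (F.fn =ᵐ[vol] V.indicator 1) →
          ∫ x in V, (T F).fn x ^ 2 ∂vol ≤ (1 - 1 / 1206) * (vol V).toReal := by
  constructor
  · obtain ⟨T, hT⟩ := exists_shift
    refine ⟨T, (isHaarShift_iff T).mpr hT, ?_⟩
    intro T' hT'
    exact shift_unique ((isHaarShift_iff T').mp hT') hT
  · intro T hT V hV _ hVf F hF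
    obtain ⟨W, hVW, hW, hWae⟩ := hV.exists_measurable_superset_ae_eq
    have h1 : vol W = vol V := measure_congr hWae
    have h2 : (F.fn) =ᵐ[vol] W.indicator 1 := hF.trans (indicator_ae_eq_of_ae_eq_set hWae.symm)
    have h3 := core ((isHaarShift_iff T).mp hT) F W hW (by rw [show volume W = vol W from rfl, h1]; exact hVf) h2
    have h4 : ∫ x in V, (T F).fn x ^ 2 ∂vol = ∫ x in W, (T F).fn x ^ 2 ∂vol :=
      setIntegral_congr_set hWae.symm
    rw [h4, ← h1]
    exact h3

end Pool.Agent.Results.MP_02a511_an.UniformLoss
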